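import Pool.Agent.Helper50.KP.GoalsF

/-!
# Project KP, packet RIN
-/

set_option autoImplicit false

namespace Pool.Agent.Helper85.KP

open Pool.Agent.Helper50.KP

theorem run_append {G : Type} [Group G] (Q : Prog) : ∀ (P : Prog) (A B : List (G × G)) (t : G),
    run (P ++ Q) A t B = (run P A t B).bind fun s => run Q s.1 s.2.1 s.2.2
  | [], A, B, t => by simp [run]
  | .D true :: P, A, [], t => by simp [run]
  | .D false :: P, A, [], t => by simp [run]
  | .D true :: P, A, b :: B, t => by
    have h := run_append Q P (cj t b :: A) B t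
    simpa [run] using h
  | .D false :: P, A, b :: B, t => by
    have h := run_append Q P (b :: A) B ((vl b)⁻¹ * t * vl b)
    simpa [run] using h
  | .U true :: P, [], B, t => by simp [run]
  | .U false :: P, [], B, t => by simp [run]
  | .U true :: P, b :: A, B, t => by
    have h := run_append Q P A (cj t⁻¹ b :: B) t
    simpa [run] using h
  | .U false :: P, b :: A, B, t => by
    have h := run_append Q P A (b :: B) (vl b * t * (vl b)⁻¹)
    simpa [run] using h

theorem cj_inv {G : Type} [Group G] (t : G) (b : G × G) : cj t⁻¹ (cj t b) = b := by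
  ext <;> simp [cj, mul_assoc]

theorem cj_inv' {G : Type} [Group G] (t : G) (b : G × G) : cj t (cj t⁻¹ b) = b := by
  ext <;> simp [cj, mul_assoc]

theorem inv_cons (I : Ins) (P : Prog) : inv (I :: P) = inv P ++ [I.inv] := by
  simp [inv]

theorem run_inv {G : Type} [Group G] : ∀ (P : Prog) (A B A' B' : List (G × G)) (t t' : G),
    run P A t B = some (A', t', B') → run (inv P) A' t' B' = some (A, t, B)
  | [], A, B, A', B', t, t', h => by
    simp only [run, Option.some.injEq, Prod.mk.injEq] at h
    obtain ⟨rfl, rfl, rfl⟩ := h
    simp [inv, run]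
  | .D true :: P, A, [], A', B', t, t', h => by simp [run] at h
  | .D false :: P, A, [], A', B', t, t', h => by simp [run] at h
  | .D true :: P, A, b :: B, A', B', t, t', h => by
    have h1 : run P (cj t b :: A) t B = some (A', t', B') := by simpa [run] using h
    rw [inv_cons, run_append, run_inv P _ _ _ _ _ _ h1]
    simp [run, Ins.inv, cj_inv]
  | .D false :: P, A, b :: B, A', B', t, t', h => by
    have h1 : run P (b :: A) ((vl b)⁻¹ * t * vl b) B = some (A', t', B') := by
      simpa [run] using h
    rw [inv_cons, run_append, run_inv P _ _ _ _ _ _ h1]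
    simp [run, Ins.inv, mul_assoc]
  | .U true :: P, [], B, A', B', t, t', h => by simp [run] at h
  | .U false :: P, [], B, A', B', t, t', h => by simp [run] at h
  | .U true :: P, b :: A, B, A', B', t, t', h => by
    have h1 : run P A t (cj t⁻¹ b :: B) = some (A', t', B') := by simpa [run] using h
    rw [inv_cons, run_append, run_inv P _ _ _ _ _ _ h1]
    simp [run, Ins.inv, cj_inv']
  | .U false :: P, b :: A, B, A', B', t, t', h => by
    have h1 : run P A (vl b * t * (vl b)⁻¹) (b :: B) = some (A', t', B') := by
      simpa [run] using h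
    rw [inv_cons, run_append, run_inv P _ _ _ _ _ _ h1]
    simp [run, Ins.inv, mul_assoc]

/-- PACKET RIN -/
theorem gRIN : Pool.Agent.Helper50.KP.RIN :=
  ⟨fun _ _ P Q A B t => run_append Q P A B t, fun _ _ P A B A' B' t t' h => run_inv P A B A' B' t t' h⟩

end Pool.Agent.Helper85.KP
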